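import Mathlib

open Set Metric Real Filter Topology

namespace Pool.Agent.Results.MP_124474_gt.Quarter

/-- the circle of length 2π with its arc-length metric -/
abbrev S := AddCircle (2 * π)

instance : Fact (0 < 2 * π) := ⟨two_pi_pos⟩

noncomputable def dH (X : Set S) : ℝ := ⨆ p : S, infDist p X

/-- correspondence between X and the circle -/
def IsCorr (X : Set S) (R : Set (S × S)) : Prop :=
  (∀ z ∈ R, z.1 ∈ X) ∧ (∀ x ∈ X, ∃ p, (x, p) ∈ R) ∧ ∀ p, ∃ x, (x, p) ∈ R

noncomputable def dis (R : Set (S × S)) : ℝ :=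
  sSup {r | ∃ z ∈ R, ∃ w ∈ R, r = |dist z.1 w.1 - dist z.2 w.2|}

noncomputable def dGH (X : Set S) : ℝ := 1 / 2 * sInf {r | ∃ R, IsCorr X R ∧ r = dis R}

lemma dist_le (x y : S) : dist x y ≤ π := by
  have := AddCircle.norm_le_half_period (2 * π) (x := x - y) two_pi_pos.ne'
  rw [abs_of_pos two_pi_pos] at this
  rw [dist_eq_norm]; linarith

lemma le_dis {R : Set (S × S)} {z w} (hz : z ∈ R) (hw : w ∈ R) :
    |dist z.1 w.1 - dist z.2 w.2| ≤ dis R := by
  refine le_csSup ⟨π, ?_⟩ ⟨z, hz, w, hw, rfl⟩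
  rintro _ ⟨a, -, b, -, rfl⟩
  rw [abs_le]
  constructor <;> linarith [dist_le a.1 b.1, dist_le a.2 b.2, dist_nonneg (x := a.1) (y := b.1),
    dist_nonneg (x := a.2) (y := b.2)]

lemma norm_le (s : ℝ) : ‖(s : S)‖ ≤ |s| := QuotientAddGroup.norm_mk_le_norm

lemma norm_small {s : ℝ} (h : |s| ≤ π) : ‖(s : S)‖ = |s| :=
  (AddCircle.norm_coe_eq_abs_iff _ two_pi_pos.ne').2 (by rw [abs_of_pos two_pi_pos]; linarith)

lemma norm_big {s : ℝ} (h : π ≤ s) (h2 : s ≤ 2 * π) : ‖(s : S)‖ = 2 * π - s := by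
  have : ((s - 2 * π : ℝ) : S) = s := by
    rw [sub_eq_add_neg, AddCircle.coe_add, AddCircle.coe_neg, AddCircle.coe_period]; simp
  rw [← this, norm_small (by rw [abs_le]; constructor <;> linarith [pi_pos]),
    abs_of_nonpos (by linarith)]; ring

lemma norm_abs (s : ℝ) : ‖((|s| : ℝ) : S)‖ = ‖(s : S)‖ := by
  rcases abs_choice s with h | h <;> rw [h]
  rw [AddCircle.coe_neg, norm_neg]

lemma low {X : Set S} {R : Set (S × S)} (hR : IsCorr X R) {δ : ℝ} {p : S} (hδ : δ ≤ π / 4)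
    (hp : ∀ x ∈ X, δ ≤ dist p x) : 2 * δ ≤ dis R := by
  by_contra hlt
  push Not at hlt
  set D := dis R
  choose g hg using hR.2.2
  have lift : ∀ θ : ℝ, ∃ s, δ ≤ s ∧ s ≤ 2 * π - δ ∧ g θ = p + (s : S) := by
    intro θ
    obtain ⟨s, hs, e⟩ := AddCircle.eq_coe_Ico (p := 2 * π) (g θ - p)
    have h := hp _ (hR.1 _ (hg θ))
    simp only at h
    rw [dist_comm, dist_eq_norm, ← e] at h
    refine ⟨s, h.trans ((norm_le s).trans_eq (abs_of_nonneg hs.1)), ?_, by rw [e]; abel⟩
    rcases le_total s π with h1 | h1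
    · linarith [pi_pos]
    · rw [norm_big h1 hs.2.le] at h; linarith
  choose f f1 f2 f3 using lift
  have hd : ∀ a b : ℝ, |‖((f a - f b : ℝ) : S)‖ - ‖((a - b : ℝ) : S)‖| ≤ D := by
    intro a b
    have := le_dis (hg a) (hg b)
    simp only [f3, dist_eq_norm, add_sub_add_left_eq_sub] at this
    rwa [AddCircle.coe_sub, AddCircle.coe_sub]
  have near : ∀ a b : ℝ, |a - b| < 2 * δ - D → |f a - f b| < 2 * δ := by
    intro a b h
    have h1 := (abs_le.1 (hd a b)).2
    have h2 := norm_le (a - b)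
    rw [← norm_abs (f a - f b)] at h1
    rcases le_total |f a - f b| π with h3 | h3
    · rw [norm_small (by rwa [abs_abs]), abs_abs] at h1; linarith
    · have h4 : |f a - f b| ≤ 2 * π - 2 * δ := by
        rw [abs_le]; constructor <;> linarith [f1 a, f1 b, f2 a, f2 b]
      have h5 : 0 ≤ D := (abs_nonneg _).trans (hd a a)
      rw [norm_big h3 (by linarith)] at h1; linarith
  have far : ∀ a : ℝ, π - D ≤ |f a - f (a + π)| := by
    intro a
    have h1 := (abs_le.1 (hd a (a + π))).1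
    have h2 := norm_le (f a - f (a + π))
    rw [show a - (a + π) = -π by ring, norm_small (s := -π) (by rw [abs_neg, abs_of_pos pi_pos]),
      abs_neg, abs_of_pos pi_pos] at h1
    linarith
  have per : f (π + π) = f 0 := by
    have e : ((π + π : ℝ) : S) = ((0 : ℝ) : S) := by
      rw [← two_mul, AddCircle.coe_period]; rfl
    have h := (f3 (π + π)).symm.trans (e ▸ f3 0)
    rw [add_right_inj] at h
    have h5 : 0 ≤ D := (abs_nonneg _).trans (hd 0 0)
    exact (AddCircle.coe_eq_coe_iff_of_mem_Ico (a := 0)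
      ⟨by linarith [f1 (π + π)], by linarith [f2 (π + π)]⟩
      ⟨by linarith [f1 0], by linarith [f2 0]⟩).1 h
  have lc : IsLocallyConstant fun a => f a < f (a + π) := by
    rw [IsLocallyConstant.iff_eventually_eq]
    intro a
    filter_upwards [ball_mem_nhds a (sub_pos.2 hlt)] with b hb
    rw [mem_ball, Real.dist_eq] at hb
    have h1 := abs_lt.1 (near b a hb)
    have h2 := abs_lt.1 (near (b + π) (a + π) (by simpa using hb))
    have h3 := far a
    have h4 := far b
    rw [eq_iff_iff]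
    constructor <;> intro h <;> by_contra h' <;> push Not at h'
    · rw [abs_of_nonneg (by linarith)] at h3
      rw [abs_of_nonpos (by linarith)] at h4
      linarith [h1.1, h2.2]
    · rw [abs_of_nonneg (by linarith)] at h4
      rw [abs_of_nonpos (by linarith)] at h3
      linarith [h1.2, h2.1]
  have h := lc.apply_eq_of_preconnectedSpace 0 π
  have h3 := far 0
  rw [per, zero_add] at h
  rw [zero_add] at h3
  rcases lt_trichotomy (f 0) (f π) with h1 | h1 | h1
  · exact lt_asymm h1 (h ▸ h1)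
  · rw [h1] at h3; simp at h3; linarith [pi_pos]
  · exact lt_asymm h1 (h ▸ h1)

lemma main (X : Set S) (hX : X.Nonempty) (h : dH X ≤ π / 4) : dGH X = dH X := by
  obtain ⟨p, -, hp⟩ := isCompact_univ.exists_isMaxOn univ_nonempty
    (continuous_infDist_pt X).continuousOn
  have bdd : BddAbove (range fun q : S => infDist q X) := ⟨_, by rintro _ ⟨q, rfl⟩; exact hp trivial⟩
  have le : ∀ q, infDist q X ≤ dH X := fun q => le_ciSup bdd q
  have e : dH X ≤ infDist p X := ciSup_le fun q => hp trivial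
  have lo : ∀ r ∈ {r | ∃ R, IsCorr X R ∧ r = dis R}, 2 * dH X ≤ r := by
    rintro _ ⟨R, hR, rfl⟩
    exact low hR h fun x hx => e.trans (infDist_le_dist_of_mem hx)
  have h0 : 0 ≤ dH X := infDist_nonneg.trans (le p)
  have up : ∀ ε > 0, ∃ r ∈ {r | ∃ R, IsCorr X R ∧ r = dis R}, r ≤ 2 * dH X + ε := by
    intro ε hε
    refine ⟨_, ⟨{z | z.1 ∈ X ∧ dist z.2 z.1 < dH X + ε / 2}, ⟨fun z hz => hz.1,
      fun x hx => ⟨x, hx, by simp; linarith⟩, fun q => ?_⟩, rfl⟩, ?_⟩
    · exact (infDist_lt_iff hX).1 ((le q).trans_lt (by linarith))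
    · apply Real.sSup_le _ (by linarith)
      rintro _ ⟨z, hz, w, hw, rfl⟩
      have := dist_dist_dist_le z.2 w.2 z.1 w.1
      rw [Real.dist_eq, abs_sub_comm] at this
      linarith [hz.2, hw.2]
  have a : 2 * dH X ≤ sInf {r | ∃ R, IsCorr X R ∧ r = dis R} :=
    le_csInf ((up 1 one_pos).imp fun _ h => h.1) lo
  have b : sInf {r | ∃ R, IsCorr X R ∧ r = dis R} ≤ 2 * dH X :=
    le_of_forall_pos_le_add fun ε hε => by
      obtain ⟨r, h1, h2⟩ := up ε hε
      exact (csInf_le ⟨_, lo⟩ h1).trans h2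
  unfold dGH; linarith

theorem result : (∀ X : Set S, X.Nonempty → dH X ≤ π / 4 → dGH X = dH X) ∧
    ¬ ∀ ε > 0, ∃ X : Set S, X.Nonempty ∧ dH X < π / 6 + ε ∧ dGH X < dH X := by
  refine ⟨main, fun h => ?_⟩
  obtain ⟨X, h1, h2, h3⟩ := h (π / 12) (by positivity)
  exact h3.ne (main X h1 (by linarith))

end Pool.Agent.Results.MP_124474_gt.Quarter
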